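import Pool.Agent.V11325.PcfCase

/-!
# Percolation with constant freezing does not satisfy the FKG inequality (MP_b6680e_pr)

The graph is the cycle `0 - 2 - 1 - 3 - 0` with a pendant edge `0 - 4`, the rate is `1/20`, and the
events are `1 has an open edge` and `0 has an open edge`.
-/

open Finset Filter Topology

namespace Pool.Agent.Results.MP_b6680e_pr.NotFKG

open Pool.Agent.V11325.Pcf

/-- the harmonic function of a table -/
noncomputable def hh (tab : List (List ℤ)) (x : State (Fin 5) (Fin 5)) : ℝ :=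
  (look tab (enc x.1) (enc x.2) : ℝ) / (DD : ℝ)

theorem DD_pos : (0 : ℝ) < (DD : ℝ) := by
  unfold DD
  norm_num

theorem hh_dec (tab : List (List ℤ)) {w o : ℕ} (hw : w < 32) (ho : o < 32) :
    hh tab (dec w, dec o) = (look tab w o : ℝ) / (DD : ℝ) := by
  unfold hh
  simp only [enc_dec w hw, enc_dec o ho]

theorem harm {tab : List (List ℤ)} (hb : ∀ w < 32, ∀ o < 32, bal tab w o = 0)
    (x : State (Fin 5) (Fin 5)) :
    (∑ e, if x.2 e = false ∧ x.1 (S5 e) = true ∧ x.1 (T5 e) = true then
      hh tab (openEdge x e) - hh tab x else 0) +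
      ∑ C ∈ clusters S5 T5 x.2, (1 / 20 : ℝ) * (hh tab (freeze x C) - hh tab x) = 0 := by
  obtain ⟨w, hw, hw'⟩ : ∃ w, w < 32 ∧ dec w = x.1 := ⟨enc x.1, dec_enc x.1⟩
  obtain ⟨o, ho, ho'⟩ : ∃ o, o < 32 ∧ dec o = x.2 := ⟨enc x.2, dec_enc x.2⟩
  obtain rfl : x = (dec w, dec o) := Prod.ext hw'.symm ho'.symm
  have e1 : ∀ e : Fin 5, (if (dec w, dec o).2 e = false ∧ (dec w, dec o).1 (S5 e) = true ∧
      (dec w, dec o).1 (T5 e) = true then
      hh tab (openEdge (dec w, dec o) e) - hh tab (dec w, dec o) else 0) =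
      (((if (!(o.testBit e) && w.testBit (S5 e) && w.testBit (T5 e)) then
      look tab w (o ||| (1 <<< (e : ℕ))) - look tab w o else 0 : ℤ)) : ℝ) / (DD : ℝ) := by
    intro e
    obtain ⟨h1, h2⟩ := open_check o ho e
    have h3 : openEdge (dec w, dec o) e = (dec w, dec (o ||| (1 <<< (e : ℕ)))) := by
      unfold openEdge
      rw [h1]
    rw [h3, hh_dec tab hw ho, hh_dec tab hw h2]
    have h4 : ((dec w, dec o).2 e = false ∧ (dec w, dec o).1 (S5 e) = true ∧
      (dec w, dec o).1 (T5 e) = true) ↔
      (!(o.testBit e) && w.testBit (S5 e) && w.testBit (T5 e)) = true := by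
      simp only [dec, Bool.and_eq_true, Bool.not_eq_true', and_assoc]
    by_cases h5 : (!(o.testBit e) && w.testBit (S5 e) && w.testBit (T5 e)) = true
    · rw [if_pos (h4.2 h5), if_pos h5]
      push_cast
      ring
    · rw [if_neg (fun h => h5 (h4.1 h)), if_neg h5]
      simp
  have e2 : ∀ m ∈ clm.getD o [], (1 / 20 : ℝ) * (hh tab (freeze (dec w, dec o) (mset m)) -
      hh tab (dec w, dec o)) =
      ((look tab (w &&& (31 ^^^ m)) o - look tab w o : ℤ) : ℝ) * (1 / (20 * (DD : ℝ))) := by
    intro m hm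
    have hm' := (clusters_check o ho).2.2 m hm
    obtain ⟨h1, h2⟩ := freeze_check w hw m hm'
    have h3 : freeze (dec w, dec o) (mset m) = (dec (w &&& (31 ^^^ m)), dec o) := by
      unfold freeze
      rw [← h1]
    rw [h3, hh_dec tab hw ho, hh_dec tab h2 ho]
    have := DD_pos
    push_cast
    field_simp
  rw [clusters_sum ho, Finset.sum_congr rfl (fun e _ => e1 e)]
  rw [List.map_congr_left (g := fun m => ((look tab (w &&& (31 ^^^ m)) o - look tab w o : ℤ) : ℝ) *
    (1 / (20 * (DD : ℝ)))) e2]
  rw [← Finset.sum_div, List.sum_map_mul_right]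
  have hbal := hb w hw o ho
  unfold bal at hbal
  have hbal' := congrArg (fun z : ℤ => (z : ℝ)) hbal
  rw [Int.cast_add, Int.cast_mul, Int.cast_zero] at hbal'
  have c1 : ∀ (l : List (Fin 5)) (f : Fin 5 → ℤ), (((l.map f).sum : ℤ) : ℝ) =
      (l.map (fun e => (f e : ℝ))).sum := by
    intro l f
    induction l with
    | nil => simp
    | cons a l ih => simp [ih]
  have c2 : ∀ (l : List ℕ) (f : ℕ → ℤ), (((l.map f).sum : ℤ) : ℝ) =
      (l.map (fun e => (f e : ℝ))).sum := by
    intro l f
    induction l with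
    | nil => simp
    | cons a l ih => simp [ih]
  rw [c1, c2, ← Fin.sum_univ_def] at hbal'
  have hD := DD_pos
  have hD' : (DD : ℝ) ≠ 0 := hD.ne'
  rw [mul_one_div, div_add_div _ _ hD' (by positivity), div_eq_zero_iff]
  left
  have h7 : (((20 : ℕ) : ℤ) : ℝ) = 20 := by norm_num
  rw [h7] at hbal'
  linear_combination (DD : ℝ) * hbal'

/-- the event that an edge at the vertex `1` is open -/
def evA : Set (Fin 5 → Bool) := {o | o 3 = true ∨ o 4 = true}

/-- the event that an edge at the vertex `0` is open -/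
def evB : Set (Fin 5 → Bool) := {o | o 0 = true ∨ o 1 = true ∨ o 2 = true}

theorem absA : ∀ o < 32, look tabA 0 o = if (dec o 3 = true ∨ dec o 4 = true) then (DD : ℤ)
    else 0 := by
  decide +kernel

theorem absB : ∀ o < 32, look tabB 0 o =
    if (dec o 0 = true ∨ dec o 1 = true ∨ dec o 2 = true) then (DD : ℤ) else 0 := by
  decide +kernel

theorem absC : ∀ o < 32, look tabC 0 o =
    if ((dec o 3 = true ∨ dec o 4 = true) ∧ (dec o 0 = true ∨ dec o 1 = true ∨ dec o 2 = true))
      then (DD : ℤ) else 0 := by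
  decide +kernel

theorem absorbing {tab : List (List ℤ)} {A : Set (Fin 5 → Bool)} {p : ℕ → Prop} [DecidablePred p]
    (hp : ∀ o, p o ↔ dec o ∈ A)
    (ht : ∀ o < 32, look tab 0 o = if p o then (DD : ℤ) else 0) (x : State (Fin 5) (Fin 5))
    (hx : ∀ v, x.1 v = false) : hh tab x = A.indicator (fun _ => 1) x.2 := by
  have h1 : x.1 = fun _ => false := funext hx
  have h2 : enc x.1 = 0 := by
    rw [h1]
    rfl
  obtain ⟨ho, ho'⟩ := dec_enc x.2
  unfold hh
  rw [h2, ht _ ho]
  by_cases h3 : x.2 ∈ A
  · rw [Set.indicator_of_mem h3, if_pos ((hp _).2 (by rw [ho']; exact h3))]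
    rw [Int.cast_natCast, div_self DD_pos.ne']
  · rw [Set.indicator_of_notMem h3, if_neg (fun h => h3 (by rw [← ho']; exact (hp _).1 h))]
    rw [Int.cast_zero, zero_div]

theorem enc_start : enc (fun _ => true) = 31 ∧ enc (fun _ => false) = 0 := by
  decide

/-- **The FKG inequality fails for percolation with constant freezing.** There are a finite simple
graph (with five vertices and five edges `s e - t e`), a rate `α > 0` and increasing events `A`,
`B` such that the final probabilities satisfy `μ(A ∩ B) < μ(A) μ(B)`. -/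
theorem result : ∃ (s t : Fin 5 → Fin 5) (α : ℝ) (A B : Set (Fin 5 → Bool)) (p q r : ℝ),
    0 < α ∧ (∀ e, s e ≠ t e) ∧ Function.Injective (fun e => s(s e, t e)) ∧
    IsUpperSet A ∧ IsUpperSet B ∧
    FinalProb s t α A p ∧ FinalProb s t α B q ∧ FinalProb s t α (A ∩ B) r ∧ r < p * q := by
  refine ⟨S5, T5, 1 / 20, evA, evB, hh tabA start, hh tabB start, hh tabC start, by norm_num,
    by decide, ?_, ?_, ?_, ?_, ?_, ?_, ?_⟩
  · unfold Function.Injective
    decide
  · intro o o' h ho
    have h1 : ∀ e, o e = true → o' e = true := fun e he => by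
      have := h e
      rw [he] at this
      exact Bool.eq_true_of_true_le this
    rcases ho with ho | ho
    · exact Or.inl (h1 _ ho)
    · exact Or.inr (h1 _ ho)
  · intro o o' h ho
    have h1 : ∀ e, o e = true → o' e = true := fun e he => by
      have := h e
      rw [he] at this
      exact Bool.eq_true_of_true_le this
    rcases ho with ho | ho | ho
    · exact Or.inl (h1 _ ho)
    · exact Or.inr (Or.inl (h1 _ ho))
    · exact Or.inr (Or.inr (h1 _ ho))
  · exact finalProb_of_harmonic S5 T5 (by norm_num) evA (hh tabA) (harm balA)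
      (absorbing (p := fun o => dec o 3 = true ∨ dec o 4 = true) (fun _ => Iff.rfl) absA)
  · exact finalProb_of_harmonic S5 T5 (by norm_num) evB (hh tabB) (harm balB)
      (absorbing (p := fun o => dec o 0 = true ∨ dec o 1 = true ∨ dec o 2 = true)
        (fun _ => Iff.rfl) absB)
  · exact finalProb_of_harmonic S5 T5 (by norm_num) (evA ∩ evB) (hh tabC) (harm balC)
      (absorbing (p := fun o => (dec o 3 = true ∨ dec o 4 = true) ∧
        (dec o 0 = true ∨ dec o 1 = true ∨ dec o 2 = true)) (fun _ => Iff.rfl) absC)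
  · unfold hh start
    simp only [enc_start.1, enc_start.2]
    have hA : look tabA 31 0 = 356725040 := by decide +kernel
    have hB : look tabB 31 0 = 361674660 := by decide +kernel
    have hC : look tabC 31 0 = 350627750 := by decide +kernel
    rw [hA, hB, hC]
    unfold DD
    norm_num

end Pool.Agent.Results.MP_b6680e_pr.NotFKG
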